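import Pool.Agent.Results.MP_d4938b_nt.NormFormsCoprimeDegrees
import Pool.Agent.R482.ST.SlowD

/-!
# Rational points on all varieties `N_{Kᵢ/ℚ}(zᵢ) = f(t) + k` with `k` near the powers of almost every number

Let the `Kᵢ` be abelian number fields with class numbers prime to their degrees such that `-1` is a norm or no negative number is
a norm, and let `v_n ≥ 1` be a sequence with a finite exponent of convergence (for instance `v_n = n + 1` or `v_n = 3 ^ n`). For
almost every `α > 1`, for ALL integral polynomials `f` of degree `d ≥ 2` in any number of variables, `d` prime to the degrees of the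
`Kᵢ`, and odd or such that `-1` is a norm from all `Kᵢ`, and all `A`, for all large `n`: ALL varieties
`V_k : N_{Kᵢ/ℚ}(zᵢ) = f(t) + k ≠ 0` with `||k| - α ^ (v_n)| ≤ v_n ^ A` have rational points, which moreover approximate the
`t`-coordinates of the `p`-adic points of bounded coordinates, for the `p` of any given finite set.
-/

set_option autoImplicit false

namespace Pool.Agent.Results.MP_d4938b_nt.NearPowers

open Finset MvPolynomial MeasureTheory Module NumberField
open NormFormsCoprimeDegrees (Approximation)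
open Pool.Agent.R482.ST (Thin)

variable {L : Type} [Field L] [NumberField L] {r : ℕ}

/-- the assertion on the integers `k` in the sets `w n`, for all large `n` -/
def Holds (K : Fin r → IntermediateField ℚ L) (w : ℕ → ℤ → Prop) : Prop :=
  ∀ (s : ℕ) (f : MvPolynomial (Fin s) ℤ), 2 ≤ f.totalDegree → (∀ i, f.totalDegree.Coprime (finrank ℚ (K i))) →
    (Odd f.totalDegree ∨ ∀ i, ∃ x : K i, Algebra.norm ℚ x = -1) →
      ∀ (T : Finset Nat.Primes) (N : ℕ), ∃ n₀ : ℕ, ∀ n : ℕ, n₀ ≤ n → ∀ k : ℤ, w n k → Approximation K f T N k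

/-- the data -/
abbrev J : Type := Σ s : ℕ, MvPolynomial (Fin s) ℤ × Finset Nat.Primes × ℕ

lemma countable_J : Countable J := by
  have h : ∀ s : ℕ, Countable (MvPolynomial (Fin s) ℤ) := fun s => by
    rw [← Cardinal.mk_le_aleph0_iff]
    refine (MvPolynomial.cardinalMk_le_max).trans ?_
    simp
  infer_instance

def Q (K : Fin r → IntermediateField ℚ L) (j : J) (k : ℤ) : Prop := ¬ Approximation K j.2.1 j.2.2.1 j.2.2.2 k

lemma core (m : ℕ) [NeZero m] [IsCyclotomicExtension {m} ℚ L] (K : Fin r → IntermediateField ℚ L)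
    (hclass : ∀ i, (classNumber (K i)).Coprime (finrank ℚ (K i)))
    (hnorm : ∀ i, (∃ x : K i, Algebra.norm ℚ x = -1) ∨ ∀ x : K i, 0 ≤ Algebra.norm ℚ x) {w : ℕ → ℤ → Prop}
    (h1 : ∀ j : J, Thin (Q K j) → ∃ n₀ : ℕ, ∀ n : ℕ, n₀ ≤ n → ∀ k : ℤ, w n k → ¬ Q K j k) : Holds K w := by
  classical
  intro s f hf hco hodd T N
  obtain ⟨n₀, hn⟩ := h1 ⟨s, f, T, N⟩ (Pool.Agent.R482.ST.thin_of_card _ fun U => by
    convert NormFormsCoprimeDegrees.result m K hclass hnorm f hf hco hodd T N U using 8
    exact Iff.rfl)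
  exact ⟨n₀, fun n hn1 k hk => not_not.1 (hn n hn1 k hk)⟩

/-- **Theorem.** Let `L` be the `m`-th cyclotomic field and `Kᵢ` subfields of it with class number prime to the degree, such that
`-1` is a norm or no negative number is a norm. (1) Let `v_n ≥ 1` be a sequence with a finite exponent of convergence. For almost
every `α > 1` and all `A`, `Holds` is true for the integers `k` with `||k| - α ^ (v_n)| ≤ v_n ^ A`: for ALL `f` of degree at least
two, prime to the degrees of the `Kᵢ`, and odd or such that `-1` is a norm from all `Kᵢ`, all finite `T`, all `N` and all large `n`,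
approximation of level `N` at `T` (in particular, existence of rational points) holds for ALL `V_k` with such `k`. (2) The same
for the powers `α ^ n` and `||k| - α ^ n| ≤ n ^ A`. -/
theorem result (m : ℕ) [NeZero m] [IsCyclotomicExtension {m} ℚ L] (K : Fin r → IntermediateField ℚ L)
    (hclass : ∀ i, (classNumber (K i)).Coprime (finrank ℚ (K i)))
    (hnorm : ∀ i, (∃ x : K i, Algebra.norm ℚ x = -1) ∨ ∀ x : K i, 0 ≤ Algebra.norm ℚ x) :
    (∀ (v : ℕ → ℝ) (t : ℝ), (∀ n, 1 ≤ v n) → (Summable fun n => (v n) ^ (-t)) →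
      ∃ E : Set ℝ, volume E = 0 ∧ ∀ α : ℝ, 1 < α → α ∉ E → ∀ A : ℕ,
        Holds K (fun n k => |(|k| : ℝ) - α ^ (v n)| ≤ (v n) ^ A)) ∧
    ∃ E : Set ℝ, volume E = 0 ∧ ∀ α : ℝ, 1 < α → α ∉ E → ∀ A : ℕ,
      Holds K (fun n k => |(|k| : ℝ) - α ^ n| ≤ (n : ℝ) ^ A) := by
  have := countable_J
  refine ⟨fun v t hv ht => ?_, ?_⟩
  · obtain ⟨E1, e1, f1⟩ := Pool.Agent.R482.ST.thin_family (Q K) hv ht
    exact ⟨E1, e1, fun α hα hαE A => core m K hclass hnorm fun j hj => f1 α hα hαE j hj A⟩
  · obtain ⟨E1, e1, f1⟩ := Pool.Agent.R482.ST.thin_family_pow (Q K)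
    exact ⟨E1, e1, fun α hα hαE A => core m K hclass hnorm fun j hj => f1 α hα hαE j hj A⟩

end Pool.Agent.Results.MP_d4938b_nt.NearPowers
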