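import Pool.Agent.R479.NF.Full

/-!
# MP_d4938b_nt: rational points on 100% of the varieties `N_{Kᵢ/ℚ}(zᵢ) = f(t) + k` for abelian fields
# `Kᵢ` of degrees prime to the degree of `f`

Let `f` be any integral polynomial of degree `d ≥ 2` in any number of variables, and let `K₁, …, K_r` be
abelian number fields (subfields of a cyclotomic field) of degrees prime to `d` and with class numbers prime
to their degrees. We suppose that for every `i` all norms are nonnegative (if the field is imaginary) or
`-1` is a norm (for example, if the degree is odd), and that the latter holds for all `i` if `d` is even.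
The varieties `V_k : N_{Kᵢ/ℚ}(zᵢ) = f(t) + k ≠ 0`, `i ≤ r`, are smooth and geometrically rational, so that
their smooth projective models are (separably) rationally connected. For all but `X / (log X) ^ U` of the
integers `|k| ≤ X` the variety `V_k` has a rational point, and moreover the rational points approximate the
`t`-coordinates of all `p`-adic points of bounded coordinates at the primes `p` of any given finite set:
there is no condition on `k` and no exceptional set of primes. For `r > 1` the theorem says that for 100%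
of the `k` the polynomial `f(t) + k` has a value at a rational `t` which is a norm from all the `Kᵢ`.

Proof. There are `p`-adic points of `V_k` far away, where `f(t) + k` is a `p`-adic `n`-th power, `n` the
product of the degrees. For almost all `k` there is a rational `t` close to such points, for the bad `p`,
and to the given points, such that `f(t) + k` is a prime number `q` up to these primes (a second moment over
`k`, `Pool/Agent/TH204`), and then `q` is the norm of a prime ideal of `Kᵢ` by the reciprocity law of the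
cyclotomic field (the Frobenius automorphisms), as `q` is congruent to the norm of an ideal modulo the
conductor. As the class number is prime to the degree, the norms of ideals are norms of elements.
-/

set_option autoImplicit false

namespace Pool.Agent.Results.MP_d4938b_nt.NormFormsCoprimeDegrees

open Finset MvPolynomial NumberField Module TensorProduct

instance (p : Nat.Primes) : Fact (p : ℕ).Prime := ⟨p.2⟩

variable {L : Type} [Field L] [NumberField L] {r s : ℕ}

/-- The point `(t, z)` with coordinates in the field `F` lies on `V_k`. The coordinates `zᵢ` form an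
element of `F ⊗ Kᵢ`. -/
def OnV (K : Fin r → IntermediateField ℚ L) (f : MvPolynomial (Fin s) ℤ) (k : ℤ)
    {F : Type} [Field F] [Algebra ℚ F] (t : Fin s → F) (z : (i : Fin r) → F ⊗[ℚ] (K i)) : Prop :=
  aeval t f + (k : F) ≠ 0 ∧ ∀ i, Algebra.norm F (z i) = aeval t f + (k : F)

/-- Approximation of level `N` at the primes of `T`. For `T = ∅` this says that `V_k` has a rational
point. -/
def Approximation (K : Fin r → IntermediateField ℚ L) (f : MvPolynomial (Fin s) ℤ)
    (T : Finset Nat.Primes) (N : ℕ) (k : ℤ) : Prop :=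
  ∀ (t : (p : Nat.Primes) → Fin s → ℚ_[(p : ℕ)]) (z : (p : Nat.Primes) → (i : Fin r) → ℚ_[(p : ℕ)] ⊗[ℚ] (K i)),
    (∀ p ∈ T, OnV K f k (t p) (z p) ∧ (∀ j, ‖t p j‖ ≤ ((p : ℕ) : ℝ) ^ N) ∧
      (((p : ℕ) : ℝ) ^ N)⁻¹ ≤ ‖aeval (t p) f + (k : ℚ_[(p : ℕ)])‖) →
    ∃ (x : Fin s → ℚ) (y : (i : Fin r) → ℚ ⊗[ℚ] (K i)), OnV K f k x y ∧
      ∀ p ∈ T, ∀ j, ‖(x j : ℚ_[(p : ℕ)]) - t p j‖ ≤ (((p : ℕ) : ℝ) ^ N)⁻¹

open Classical in
/-- 100% of the `V_k` have rational points, with approximation for the coordinates `t`. Here `L` is the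
`m`-th cyclotomic field, and the `Kᵢ` are any of its subfields. -/
theorem result (m : ℕ) [NeZero m] [IsCyclotomicExtension {m} ℚ L] (K : Fin r → IntermediateField ℚ L)
    (hclass : ∀ i, (classNumber (K i)).Coprime (finrank ℚ (K i)))
    (hnorm : ∀ i, (∃ x : K i, Algebra.norm ℚ x = -1) ∨ ∀ x : K i, 0 ≤ Algebra.norm ℚ x)
    (f : MvPolynomial (Fin s) ℤ) (hf : 2 ≤ f.totalDegree)
    (hcoprime : ∀ i, f.totalDegree.Coprime (finrank ℚ (K i)))
    (hodd : Odd f.totalDegree ∨ ∀ i, ∃ x : K i, Algebra.norm ℚ x = -1)
    (T : Finset Nat.Primes) (N U : ℕ) :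
    ∃ X₀ : ℕ, ∀ X : ℕ, X₀ ≤ X →
      (#{k ∈ Icc (-(X : ℤ)) X | ¬ Approximation K f T N k} : ℝ) ≤ X / Real.log X ^ U := by
  obtain ⟨X₀, h⟩ := Pool.Agent.R479.NF.mainC m K hclass hnorm f hf hcoprime hodd T N U
  refine ⟨X₀, fun X hX => ?_⟩
  obtain ⟨Bad, hB1, hB2⟩ := h X hX
  refine le_trans ?_ hB1
  have hsub : {k ∈ Icc (-(X : ℤ)) X | ¬ Approximation K f T N k} ⊆ Bad := by
    intro k hk
    rw [mem_filter, mem_Icc] at hk
    by_contra hkB
    apply hk.2
    intro t z hloc
    obtain ⟨x, hx1, hx2, hx3⟩ := hB2 k (abs_le.2 hk.1) hkB t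
      (fun p hp => ⟨(hloc p hp).2.1, (hloc p hp).2.2, fun i => ⟨z p i, by
        rw [Int.cast_one, one_mul]
        exact (hloc p hp).1.2 i⟩⟩)
    choose y hy using hx3
    refine ⟨x, fun i => (1 : ℚ) ⊗ₜ[ℚ] y i, ⟨hx2, fun i => ?_⟩, hx1⟩
    rw [Pool.Agent.R479.NF.norm_one_tmul_rat, hy i, Int.cast_one, one_mul]
  exact_mod_cast card_le_card hsub

end Pool.Agent.Results.MP_d4938b_nt.NormFormsCoprimeDegrees
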